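import Pool.Agent.Helper54_LY.Chn2
import Pool.Agent.LE.StmtsC

/-!
# `near` and `ratio` with constants which are uniform in the parameters
-/

set_option autoImplicit false
set_option linter.unusedSectionVars false

open scoped Topology ENNReal
open MeasureTheory Filter ProbabilityTheory

noncomputable section

namespace Pool.Agent.LE.H26U

open Pool.Agent.Anderson Pool.Agent.Loc Pool.Agent.Mob Pool.Agent.Helper54.Bal Pool.Agent.LY

variable {d : ℕ}

theorem sigma_ne {B σ E : ℝ} (h : Par B σ E) : σ ≠ 0 := by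
  rintro rfl
  have := h.2.2
  rw [abs_zero, mul_zero] at this
  linarith

theorem inv_le {B σ E : ℝ} (h : Par B σ E) : 1 / |σ| ≤ B := by
  have h1 : 0 < |σ| := abs_pos.2 (sigma_ne h)
  rw [div_le_iff₀ h1]
  exact h.2.2

theorem mom1_eq (σ : ℝ) : mom1 (gl σ) = ENNReal.ofReal |σ| * mom1 (gl 1) := by
  have h : ∀ s : ℝ, mom1 (gl s) = ∫⁻ t, ENNReal.ofReal |s * t| ∂γ1 := by
    intro s
    unfold mom1 gl
    rw [lintegral_map (by fun_prop) (by fun_prop)]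
  rw [h, h]
  simp only [one_mul]
  rw [← lintegral_const_mul' _ _ ENNReal.ofReal_ne_top]
  refine lintegral_congr fun t => ?_
  rw [abs_mul, ENNReal.ofReal_mul (abs_nonneg _)]

theorem CC_le {B σ E : ℝ} (h : Par B σ E) (M : ℝ) :
    CC (gl σ) (1 / |σ|) M ≤ ENNReal.ofReal M * (2 + ENNReal.ofReal B * mom1 (gl 1) +
      ENNReal.ofReal (1 + 2 * B)) := by
  unfold CC
  rw [mom1_eq]
  have h1 : ENNReal.ofReal |σ| ≤ ENNReal.ofReal B := ENNReal.ofReal_le_ofReal h.2.1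
  have h2 : ENNReal.ofReal (1 + 2 * (1 / |σ|)) ≤ ENNReal.ofReal (1 + 2 * B) :=
    ENNReal.ofReal_le_ofReal (by have := inv_le h; linarith)
  gcongr

/-- the negative moment with a constant which is uniform in the parameters -/
theorem lowU (B : ℝ) (hB : 0 < B) : ∃ C : ℝ, 0 < C ∧ ∀ σ E : ℝ, Par B σ E →
    ∀ (Λ : Finset (Site d)) (x y : Site d), x ∈ Λ → y ∈ Λ → (x = y ∨ hop x y ≠ 0) →
    ∫⁻ V, (ENNReal.ofReal |gr V Λ E x y|) ^ (-(1 / 4) : ℝ) ∂(PL (gl σ) Λ) ≤ ENNReal.ofReal C := by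
  set M : ℝ := 32 * (d : ℝ) ^ 2 + 4 + B with hM
  have hM0 : 0 < M := by positivity
  set K : ℝ≥0∞ := (ENNReal.ofReal M * (2 + ENNReal.ofReal B * mom1 (gl 1) +
      ENNReal.ofReal (1 + 2 * B))) ^ (5 ^ d) *
      (ENNReal.ofReal (1 / (16 * M ^ 2))) ^ (-(1 / 4) : ℝ) with hK
  have hKt : K ≠ ∞ := by
    refine ENNReal.mul_ne_top (ENNReal.pow_ne_top (ENNReal.mul_ne_top ENNReal.ofReal_ne_top ?_)) ?_
    · refine ENNReal.add_ne_top.2 ⟨ENNReal.add_ne_top.2 ⟨by norm_num,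
        ENNReal.mul_ne_top ENNReal.ofReal_ne_top (mom1_gl 1)⟩, ENNReal.ofReal_ne_top⟩
    · refine ENNReal.rpow_ne_top_of_ne_zero ?_ ENNReal.ofReal_ne_top
      rw [Ne, ENNReal.ofReal_eq_zero, not_le]
      positivity
  refine ⟨K.toReal + 1, by positivity, ?_⟩
  intro σ E hP Λ x y hx hy hxy
  have h1 := low (bddDens_gl (sigma_ne hP)) (M := M) (E := E) (by rw [hM]; linarith) Λ
    (by
      rw [hM]
      have h2 := hP.1
      have : 0 ≤ 32 * (d : ℝ) ^ 2 := by positivity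
      linarith) hx hy hxy
  refine h1.trans ?_
  have h2 : Clow d (gl σ) (1 / |σ|) M ≤ K := by
    unfold Clow
    rw [hK]
    gcongr
    exact CC_le hP M
  refine h2.trans ?_
  rw [← ENNReal.ofReal_toReal hKt]
  apply ENNReal.ofReal_le_ofReal
  rw [ENNReal.toReal_ofReal ENNReal.toReal_nonneg]
  linarith

theorem nearU (B : ℝ) (hB : 0 < B) {p : ℝ} (hp : 0 < p) : ∃ C : ℝ, 0 ≤ C ∧
    ∀ σ E : ℝ, Par B σ E →
    ∀ (Λ : Finset (Site d)) (x y : Site d), x ∈ Λ → y ∈ Λ → (x = y ∨ hop x y ≠ 0) →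
    Nn (PL (gl σ) Λ) p (fun V => Dp (gr V Λ E x y)) ≤ ENNReal.ofReal C := by
  obtain ⟨C, hC, h⟩ := lowU (d := d) B hB
  refine ⟨((4 * p) ^ p * C) ^ (1 / p), by positivity, ?_⟩
  intro σ E hP Λ x y hx hy hxy
  rw [← ENNReal.ofReal_rpow_of_nonneg (by positivity) (by positivity)]
  apply Nn_le hp
  calc ∫⁻ V, (Dp (gr V Λ E x y)) ^ p ∂(PL (gl σ) Λ)
      ≤ ∫⁻ V, ENNReal.ofReal ((4 * p) ^ p) * (ENNReal.ofReal |gr V Λ E x y|) ^ (-(1 / 4) : ℝ)
          ∂(PL (gl σ) Λ) := lintegral_mono fun V => Dp_rpow_le hp _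
    _ = ENNReal.ofReal ((4 * p) ^ p) * ∫⁻ V, (ENNReal.ofReal |gr V Λ E x y|) ^ (-(1 / 4) : ℝ)
          ∂(PL (gl σ) Λ) := lintegral_const_mul' _ _ ENNReal.ofReal_ne_top
    _ ≤ ENNReal.ofReal ((4 * p) ^ p) * ENNReal.ofReal C := by
        gcongr
        exact h σ E hP Λ x y hx hy hxy
    _ = _ := by rw [← ENNReal.ofReal_mul (by positivity)]

/-- `ratio` with its constant -/
theorem ratioC {σ : ℝ} (hσ : σ ≠ 0) (E : ℝ) {p : ℝ} (hp : 0 < p)
    (Λ : Finset (Site d)) (x u y : Site d) :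
    Nn (PL (gl σ) Λ) p (fun V => Rp (gr V Λ E x u) (gr V Λ E u y) (gr V Λ E x y)) ≤
      ENNReal.ofReal (((2 * p) ^ p * (1 + 8 * (1 / |σ|))) ^ (1 / p)) := by
  set ρ : ℝ := 1 / |σ| with hρdef
  have hν := bddDens_gl hσ
  have hρ : 0 < ρ := hν.1
  rw [← ENNReal.ofReal_rpow_of_nonneg (by positivity) (by positivity)]
  apply Nn_le hp
  have hone : ∀ τ : ℝ, 0 < τ → PL (gl σ) Λ {V | τ * |gr V Λ E x y| < |gr V Λ E x u| *
      |gr V Λ E u y|} ≤ ENNReal.ofReal (8 * ρ / τ) := fun τ hτ => one hν Λ E u x y hτ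
  have hnull : PL (gl σ) Λ {V | gr V Λ E x y = 0 ∧ gr V Λ E x u * gr V Λ E u y ≠ 0} = 0 := by
    have h1 : ∀ k : ℕ, PL (gl σ) Λ {V | gr V Λ E x y = 0 ∧ gr V Λ E x u * gr V Λ E u y ≠ 0} ≤
        ENNReal.ofReal (8 * ρ / ((k : ℝ) + 1)) := by
      intro k
      refine (measure_mono ?_).trans (hone ((k : ℝ) + 1) (by positivity))
      rintro V ⟨h2, h3⟩
      rw [Set.mem_ofPred_eq, h2, abs_zero, mul_zero, ← abs_mul]
      exact abs_pos.2 h3
    have h2 : Tendsto (fun k : ℕ => ENNReal.ofReal (8 * ρ / ((k : ℝ) + 1))) atTop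
        (𝓝 (ENNReal.ofReal 0)) := by
      apply ENNReal.tendsto_ofReal
      have := (tendsto_one_div_add_atTop_nhds_zero_nat (𝕜 := ℝ)).const_mul (8 * ρ)
      rw [mul_zero] at this
      refine this.congr fun k => ?_
      ring
    rw [ENNReal.ofReal_zero] at h2
    exact le_antisymm (ge_of_tendsto' h2 h1) zero_le
  set f : (Site d → ℝ) → ℝ := fun V => |gr V Λ E x u| * |gr V Λ E u y| / |gr V Λ E x y| with hf
  have hfm : Measurable f := by
    have h1 := measurable_gr Λ E x u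
    have h2 := measurable_gr Λ E u y
    have h3 := measurable_gr Λ E x y
    exact ((h1.abs.mul h2.abs)).div h3.abs
  have hweak : ∀ τ : ℝ, 0 < τ → PL (gl σ) Λ {V | τ < |f V|} ≤ ENNReal.ofReal (8 * ρ / τ) := by
    intro τ hτ
    refine (measure_mono ?_).trans (hone τ hτ)
    intro V hV
    have h0 : 0 ≤ f V := by rw [hf]; positivity
    rw [Set.mem_ofPred_eq, abs_of_nonneg h0] at hV
    rw [Set.mem_ofPred_eq]
    have hne : |gr V Λ E x y| ≠ 0 := by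
      intro h1
      rw [hf] at hV
      simp only [h1, div_zero] at hV
      linarith
    have hpos : 0 < |gr V Λ E x y| := lt_of_le_of_ne (abs_nonneg _) (Ne.symm hne)
    exact (lt_div_iff₀ hpos).1 hV
  have hint := weak_sqrt hfm (B := Set.univ) (c := 8 * ρ) (by positivity) hweak (a := 1) one_pos
  rw [Measure.restrict_univ, measure_univ, mul_one, div_one,
    ← ENNReal.ofReal_add (by norm_num) (by positivity)] at hint
  have hae : ∀ᵐ V ∂(PL (gl σ) Λ), (Rp (gr V Λ E x u) (gr V Λ E u y) (gr V Λ E x y)) ^ p ≤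
      ENNReal.ofReal ((2 * p) ^ p) * ENNReal.ofReal (√|f V|) := by
    have h1 : ∀ᵐ V ∂(PL (gl σ) Λ), ¬ (gr V Λ E x y = 0 ∧ gr V Λ E x u * gr V Λ E u y ≠ 0) := by
      rw [ae_iff]
      simpa only [not_not] using hnull
    filter_upwards [h1] with V hV
    have h0 : 0 ≤ f V := by rw [hf]; positivity
    rw [abs_of_nonneg h0]
    by_cases hc : gr V Λ E x y = 0
    · have h2 : gr V Λ E x u * gr V Λ E u y = 0 := by
        by_contra h3
        exact hV ⟨hc, h3⟩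
      unfold Rp
      rw [if_pos hc, if_pos h2, ENNReal.zero_rpow_of_pos hp]
      exact zero_le
    · exact Rp_rpow_le hp hc
  calc _ ≤ ∫⁻ V, ENNReal.ofReal ((2 * p) ^ p) * ENNReal.ofReal (√|f V|) ∂(PL (gl σ) Λ) :=
        lintegral_mono_ae hae
    _ = ENNReal.ofReal ((2 * p) ^ p) * ∫⁻ V, ENNReal.ofReal (√|f V|) ∂(PL (gl σ) Λ) :=
        lintegral_const_mul' _ _ ENNReal.ofReal_ne_top
    _ ≤ ENNReal.ofReal ((2 * p) ^ p) * ENNReal.ofReal (1 + 8 * ρ) := by gcongr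
    _ = _ := by rw [← ENNReal.ofReal_mul (by positivity)]

theorem ratioU (B : ℝ) (hB : 0 < B) {p : ℝ} (hp : 0 < p) : ∃ C : ℝ, 0 ≤ C ∧
    ∀ σ E : ℝ, Par B σ E → ∀ (Λ : Finset (Site d)) (x u y : Site d),
    Nn (PL (gl σ) Λ) p (fun V => Rp (gr V Λ E x u) (gr V Λ E u y) (gr V Λ E x y)) ≤
      ENNReal.ofReal C := by
  refine ⟨((2 * p) ^ p * (1 + 8 * B)) ^ (1 / p), by positivity, ?_⟩
  intro σ E hP Λ x u y
  refine (ratioC (sigma_ne hP) E hp Λ x u y).trans (ENNReal.ofReal_le_ofReal ?_)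
  have h1 := inv_le hP
  have h2 : 0 < |σ| := abs_pos.2 (sigma_ne hP)
  apply Real.rpow_le_rpow (by positivity) _ (by positivity)
  gcongr

end Pool.Agent.LE.H26U
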